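import Pool.Agent.W562.HY.Defs
import Pool.Agent.Helper941.Hyp.Sig

/-!
# HY-BASIS: omitting a nonhyperarithmetic set
-/

set_option autoImplicit false

namespace Pool.Agent.W928.HY.Basis

open Pool.Agent.W562.HY Encodable Denumerable Nat.Partrec Pool.Agent.Helper941
open Pool.Agent.Helper941.IsoProb Pool.Agent.Helper941.Zeta
open Pool.Agent.Helper941.Hyp

/-- initial segments -/
def ini (g : ℕ → ℕ) (n : ℕ) : List ℕ := (List.range n).map g

theorem ini_congr {g g' : ℕ → ℕ} {n : ℕ} (h : ∀ i < n, g i = g' i) : ini g n = ini g' n := by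
  unfold ini
  refine List.map_congr_left fun i hi => h i (List.mem_range.1 hi)

theorem ini_eq {g g' : ℕ → ℕ} {n : ℕ} (h : ini g n = ini g' n) : ∀ i < n, g i = g' i := by
  intro i hi
  have h1 : gt (ini g n) i = gt (ini g' n) i := by rw [h]
  unfold ini at h1
  rwa [gt_range g hi, gt_range g' hi] at h1

/-- the omitting argument: local constancy -/
theorem omit' (T : List ℕ → List ℕ → Prop) (V : ℕ → ℕ → ℕ → Prop)
    (x0 : (ℕ → ℕ) × (ℕ → ℕ)) (h0 : ∀ n, T (ini x0.1 n) (ini x0.2 n))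
    (hall : ∀ x : (ℕ → ℕ) × (ℕ → ℕ), (∀ n, T (ini x.1 n) (ini x.2 n)) →
      ∃ j, ∀ n, V j n (x.1 (Nat.pair 0 (Nat.pair j n)))) :
    ∃ (N j : ℕ) (y : (ℕ → ℕ) × (ℕ → ℕ)), (∀ n, T (ini y.1 n) (ini y.2 n)) ∧
      ∀ x : (ℕ → ℕ) × (ℕ → ℕ), (∀ n, T (ini x.1 n) (ini x.2 n)) → ini x.1 N = ini y.1 N →
        ini x.2 N = ini y.2 N → ∀ n, V j n (x.1 (Nat.pair 0 (Nat.pair j n))) := by
  by_contra hcon
  push Not at hcon
  -- choose the step
  have hstep : ∀ (N j : ℕ) (y : {y : (ℕ → ℕ) × (ℕ → ℕ) // ∀ n, T (ini y.1 n) (ini y.2 n)}),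
      ∃ x : {x : (ℕ → ℕ) × (ℕ → ℕ) // ∀ n, T (ini x.1 n) (ini x.2 n)},
        ini x.1.1 N = ini y.1.1 N ∧ ini x.1.2 N = ini y.1.2 N ∧
          ∃ n, ¬ V j n (x.1.1 (Nat.pair 0 (Nat.pair j n))) := by
    intro N j y
    obtain ⟨x, hx, h1, h2, n, h3⟩ := hcon N j y.1 y.2
    exact ⟨⟨x, hx⟩, h1, h2, n, h3⟩
  choose nx hx1 hx2 wit hwit using hstep
  -- the sequence
  let st : ℕ → ({y : (ℕ → ℕ) × (ℕ → ℕ) // ∀ n, T (ini y.1 n) (ini y.2 n)}) × ℕ := fun k =>
    Nat.rec (⟨x0, h0⟩, 0) (fun j p => (nx p.2 j p.1,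
      p.2 + j + Nat.pair 0 (Nat.pair j (wit p.2 j p.1)) + 1)) k
  have hst : ∀ j, st (j + 1) = (nx (st j).2 j (st j).1,
      (st j).2 + j + Nat.pair 0 (Nat.pair j (wit (st j).2 j (st j).1)) + 1) := fun j => rfl
  have hN1 : ∀ j, (st j).2 < (st (j + 1)).2 := by
    intro j
    rw [hst]
    simp only
    omega
  have hN2 : ∀ j, j ≤ (st j).2 := by
    intro j
    induction j with
    | zero => exact Nat.zero_le _
    | succ j ih => have := hN1 j; omega
  have hNmono : ∀ i j, i ≤ j → (st i).2 ≤ (st j).2 := by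
    intro i j hij
    induction j, hij using Nat.le_induction with
    | base => exact le_rfl
    | succ j _ ih => have := hN1 j; omega
  have hag : ∀ i j, i ≤ j → ∀ m < (st i).2, (st j).1.1.1 m = (st i).1.1.1 m ∧
      (st j).1.1.2 m = (st i).1.1.2 m := by
    intro i j hij m hm
    induction j, hij using Nat.le_induction with
    | base => exact ⟨rfl, rfl⟩
    | succ j hij ih =>
      have h1 := hx1 (st j).2 j (st j).1
      have h2 := hx2 (st j).2 j (st j).1
      have hm' : m < (st j).2 := lt_of_lt_of_le hm (hNmono i j hij)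
      rw [hst]
      exact ⟨(ini_eq h1 m hm').trans ih.1, (ini_eq h2 m hm').trans ih.2⟩
  -- the limit
  set g : ℕ → ℕ := fun m => (st (m + 1)).1.1.1 m with hg
  set f : ℕ → ℕ := fun m => (st (m + 1)).1.1.2 m with hf
  have hlim : ∀ j, ∀ m < (st j).2, g m = (st j).1.1.1 m ∧ f m = (st j).1.1.2 m := by
    intro j m hm
    have hm1 : m < (st (m + 1)).2 := by have := hN2 (m + 1); omega
    have h1 := hag (m + 1) (max (m + 1) j) (le_max_left _ _) m hm1
    have h2 := hag j (max (m + 1) j) (le_max_right _ _) m hm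
    exact ⟨h1.1.symm.trans h2.1, h1.2.symm.trans h2.2⟩
  have hC : ∀ n, T (ini g n) (ini f n) := by
    intro n
    have h1 : ini g n = ini (st n).1.1.1 n := ini_congr fun i hi =>
      (hlim n i (by have := hN2 n; omega)).1
    have h2 : ini f n = ini (st n).1.1.2 n := ini_congr fun i hi =>
      (hlim n i (by have := hN2 n; omega)).2
    rw [h1, h2]
    exact (st n).1.2 n
  obtain ⟨j, hj⟩ := hall (g, f) hC
  have hw := hwit (st j).2 j (st j).1
  apply hw
  have h1 := hj (wit (st j).2 j (st j).1)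
  have h2 : g (Nat.pair 0 (Nat.pair j (wit (st j).2 j (st j).1))) =
      (st (j + 1)).1.1.1 (Nat.pair 0 (Nat.pair j (wit (st j).2 j (st j).1))) := by
    refine (hlim (j + 1) _ ?_).1
    rw [hst]
    simp only
    omega
  simp only at h1
  rw [h2, hst] at h1
  exact h1

/-- a `Σ¹₁` definition -/
theorem sig (T : List ℕ × List ℕ → Prop) (hT : ComputablePred T) (N j : ℕ) (s t : List ℕ)
    (D : ℕ → Prop) (hD : ComputablePred D) :
    Sigma11 fun n : ℕ => ∃ x : (ℕ → ℕ) × (ℕ → ℕ), (∀ m, T (ini x.1 m, ini x.2 m)) ∧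
      ini x.1 N = s ∧ ini x.2 N = t ∧ D (x.1 (Nat.pair 0 (Nat.pair j n))) := by
  refine sigma11_gen
    (R := fun q : ℕ × ℕ × List ℕ => T (cl q.2.2 0 q.2.1, cl q.2.2 1 q.2.1) ∧
      cl q.2.2 0 N = s ∧ cl q.2.2 1 N = t ∧
        D (gt q.2.2 (Nat.pair 0 (Nat.pair 0 (Nat.pair j q.1)))))
    (u := fun p => Nat.pair 0 p.2 + Nat.pair 1 p.2 + Nat.pair 0 N + Nat.pair 1 N +
      Nat.pair 0 (Nat.pair 0 (Nat.pair j p.1)) + 1) ?_ ?_ fun n => ?_
  · refine p_and (computablePred_comp hT (c_pair (c_cl (c_snd (c_snd c_id)) (c_const 0)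
      (c_fst (c_snd c_id))) (c_cl (c_snd (c_snd c_id)) (c_const 1) (c_fst (c_snd c_id))))) ?_
    refine p_and (eq_comp (c_cl (c_snd (c_snd c_id)) (c_const 0) (c_const N)) (c_const s)) ?_
    refine p_and (eq_comp (c_cl (c_snd (c_snd c_id)) (c_const 1) (c_const N)) (c_const t)) ?_
    exact computablePred_comp hD (c_gt (c_snd (c_snd c_id)) (c_npair (c_const 0)
      (c_npair (c_const 0) (c_npair (c_const j) (c_fst c_id)))))
  · exact c_succ (c_add (c_add (c_add (c_add (c_npair (c_const 0) (c_snd c_id))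
      (c_npair (c_const 1) (c_snd c_id))) (c_const _)) (c_const _))
      (c_npair (c_const 0) (c_npair (c_const 0) (c_npair (c_const j) (c_fst c_id)))))
  · constructor
    · rintro ⟨⟨g, f⟩, h1, h2, h3, h4⟩
      simp only at h1 h2 h3 h4
      refine ⟨fun x => if x.unpair.1 = 0 then g x.unpair.2 else f x.unpair.2, fun m => ?_⟩
      simp only
      rw [cl_range _ (by omega), cl_range _ (by omega), cl_range _ (by omega),
        cl_range _ (by omega), gt_range _ (by omega)]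
      simp only [Nat.unpair_pair]
      exact ⟨h1 m, h2, h3, h4⟩
    · rintro ⟨h, hh⟩
      have key : ∀ m, T (ini (fun k => h (Nat.pair 0 k)) m, ini (fun k => h (Nat.pair 1 k)) m) ∧
          ini (fun k => h (Nat.pair 0 k)) N = s ∧ ini (fun k => h (Nat.pair 1 k)) N = t ∧
          D (h (Nat.pair 0 (Nat.pair 0 (Nat.pair j n)))) := by
        intro m
        have := hh m
        simp only at this
        rw [cl_range _ (by omega), cl_range _ (by omega), cl_range _ (by omega),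
          cl_range _ (by omega), gt_range _ (by omega)] at this
        exact this
      exact ⟨(fun k => h (Nat.pair 0 k), fun k => h (Nat.pair 1 k)), fun m => (key m).1,
        (key 0).2.1, (key 0).2.2.1, (key 0).2.2.2⟩

theorem main : Pool.Agent.W562.HY.P_basis := by
  intro hE φ hz X hX
  obtain ⟨⟨R, hR, e⟩, -⟩ := hE φ
  by_contra hcon
  push Not at hcon
  set T : List ℕ × List ℕ → Prop := fun p => R (([], [], []), p.1, p.2) with hTdef
  have hT : ComputablePred T := computablePred_comp hR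
    (c_pair (c_const ([], [], [])) (c_pair (c_fst c_id) (c_snd c_id)))
  have e' : ∀ z, φ.eval (str z) [] [] [] ↔ ∃ f : ℕ → ℕ, ∀ n, T (ini z n, ini f n) :=
    fun z => e ([], [], []) z
  obtain ⟨z0, hz0⟩ := hz
  obtain ⟨f0, hf0⟩ := (e' z0).1 hz0
  obtain ⟨N, j, y, hy, hloc⟩ := omit' (fun a b => T (a, b)) (fun _ n v => (v = 1 ↔ n ∈ X))
    (z0, f0) hf0 (by
      intro x hx
      obtain ⟨j, hj⟩ := hcon x.1 ((e' x.1).2 ⟨x.2, hx⟩)
      exact ⟨j, hj⟩)
  apply hX
  constructor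
  · refine (sig T hT N j (ini y.1 N) (ini y.2 N) (fun v => v = 1)
      (p_eq c_id (c_const 1))).of_iff fun n => ?_
    constructor
    · intro hn
      exact ⟨y, hy, rfl, rfl, (hloc y hy rfl rfl n).2 hn⟩
    · rintro ⟨x, hx, h1, h2, h3⟩
      exact (hloc x hx h1 h2 n).1 h3
  · refine (sig T hT N j (ini y.1 N) (ini y.2 N) (fun v => ¬ v = 1)
      (p_not (p_eq c_id (c_const 1)))).of_iff fun n => ?_
    constructor
    · intro hn
      exact ⟨y, hy, rfl, rfl, fun h => hn ((hloc y hy rfl rfl n).1 h)⟩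
    · rintro ⟨x, hx, h1, h2, h3⟩
      exact fun hn => h3 ((hloc x hx h1 h2 n).2 hn)

end Pool.Agent.W928.HY.Basis
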