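import Pool.Agent.W562.HY.Defs

/-!
# HY-LS: Löwenheim-Skolem for the structures Str
-/

set_option autoImplicit false

namespace Pool.Agent.W928.HY.LS

open Pool.Agent.W562.HY

/-- enumeration of a hull, closed under the functions `fR k` and `fC k` -/
noncomputable def E (S : Str) (fR : ℕ → List ℕ → List S.R → List S.C → S.R)
    (fC : ℕ → List ℕ → List S.R → List S.C → S.C) : ℕ → S.R × S.C
  | n =>
    let d : ℕ × ℕ × List ℕ × List ℕ × List ℕ := Denumerable.ofNat _ n
    if n = 0 then (S.r0, S.c0) else
      (fR d.2.1 d.2.2.1 (d.2.2.2.1.map fun i => if _h : i < n then (E S fR fC i).1 else S.r0)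
          (d.2.2.2.2.map fun i => if _h : i < n then (E S fR fC i).2 else S.c0),
        fC d.2.1 d.2.2.1 (d.2.2.2.1.map fun i => if _h : i < n then (E S fR fC i).1 else S.r0)
          (d.2.2.2.2.map fun i => if _h : i < n then (E S fR fC i).2 else S.c0))

section

variable (S : Str) (fR : ℕ → List ℕ → List S.R → List S.C → S.R)
    (fC : ℕ → List ℕ → List S.R → List S.C → S.C)

theorem E_zero : E S fR fC 0 = (S.r0, S.c0) := by
  rw [E]
  simp

theorem E_hit (k : ℕ) (v w u : List ℕ) : ∃ n, E S fR fC n =
    (fR k v (w.map fun i => (E S fR fC i).1) (u.map fun i => (E S fR fC i).2),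
      fC k v (w.map fun i => (E S fR fC i).1) (u.map fun i => (E S fR fC i).2)) := by
  set m := w.sum + u.sum + 1 with hm
  set n := Encodable.encode ((m, k, v, w, u) : ℕ × ℕ × List ℕ × List ℕ × List ℕ) with hn
  have hle : m ≤ n := by
    rw [hn, Encodable.encode_prod_val]
    exact Nat.left_le_pair _ _
  have hmem : ∀ (l : List ℕ) (i : ℕ), i ∈ l → i ≤ l.sum := fun l i hi => List.le_sum_of_mem hi
  refine ⟨n, ?_⟩
  rw [E]
  have hd : (Denumerable.ofNat (ℕ × ℕ × List ℕ × List ℕ × List ℕ) n) = (m, k, v, w, u) := by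
    rw [hn, Denumerable.ofNat_encode]
  simp only [hd]
  rw [if_neg (by omega)]
  have h1 : (w.map fun i => if _h : i < n then (E S fR fC i).1 else S.r0) =
      w.map fun i => (E S fR fC i).1 := by
    refine List.map_congr_left fun i hi => ?_
    have := hmem w i hi
    rw [dif_pos (by omega)]
  have h2 : (u.map fun i => if _h : i < n then (E S fR fC i).2 else S.c0) =
      u.map fun i => (E S fR fC i).2 := by
    refine List.map_congr_left fun i hi => ?_
    have := hmem u i hi
    rw [dif_pos (by omega)]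
  rw [h1, h2]

end

/-- Skolem functions of the real sort -/
noncomputable def skR (S : Str) : Fm → List (List ℕ → List S.R → List S.C → S.R)
  | .num _ _ => []
  | .app _ _ _ => []
  | .mem _ _ _ => []
  | .neg φ => skR S φ
  | .and φ ψ => skR S φ ++ skR S ψ
  | .exN φ => skR S φ
  | .exR φ => (fun v w u => open Classical in
      if h : ∃ r, φ.eval S v (r :: w) u then h.choose else S.r0) :: skR S φ
  | .exC φ => skR S φ

/-- Skolem functions of the class sort -/
noncomputable def skC (S : Str) : Fm → List (List ℕ → List S.R → List S.C → S.C)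
  | .num _ _ => []
  | .app _ _ _ => []
  | .mem _ _ _ => []
  | .neg φ => skC S φ
  | .and φ ψ => skC S φ ++ skC S ψ
  | .exN φ => skC S φ
  | .exR φ => skC S φ
  | .exC φ => (fun v w u => open Classical in
      if h : ∃ c, φ.eval S v w (c :: u) then h.choose else S.c0) :: skC S φ

/-- the real that codes the hull -/
noncomputable def code (S : Str) (e : ℕ → S.R) (e' : ℕ → S.C) (n : ℕ) : ℕ :=
  open Classical in
  if n.unpair.1 = 0 then S.app (e n.unpair.2.unpair.1) n.unpair.2.unpair.2
  else if S.mem (e' n.unpair.2.unpair.1) n.unpair.2.unpair.2.unpair.1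
    (e n.unpair.2.unpair.2.unpair.2) then 1 else 0

theorem getD_map' {α β : Type} (f : α → β) (l : List α) (i : ℕ) (a : α) (b : β) (h : f a = b) :
    (l.map f).getD i b = f (l.getD i a) := by
  subst h
  simp [List.getD_eq_getElem?_getD]

theorem eval_iff (S : Str) (e : ℕ → S.R) (e' : ℕ → S.C) (he : e 0 = S.r0) (he' : e' 0 = S.c0)
    (φ : Fm) (hR : ∀ f ∈ skR S φ, ∀ v w u : List ℕ, ∃ j, e j = f v (w.map e) (u.map e'))
    (hC : ∀ f ∈ skC S φ, ∀ v w u : List ℕ, ∃ j, e' j = f v (w.map e) (u.map e')) :
    ∀ v w u : List ℕ, φ.eval (str (code S e e')) v w u ↔ φ.eval S v (w.map e) (u.map e') := by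
  induction φ with
  | num r h => intro v w u; exact Iff.rfl
  | app i j k =>
    intro v w u
    show code S e e' (Nat.pair 0 (Nat.pair (w.getD i 0) (v.getD j 0))) = v.getD k 0 ↔
      S.app ((w.map e).getD i S.r0) (v.getD j 0) = v.getD k 0
    rw [getD_map' e w i 0 S.r0 he]
    unfold code
    rw [if_pos (by simp)]
    simp
  | mem i j k =>
    intro v w u
    show code S e e' (Nat.pair 1 (Nat.pair (u.getD i 0) (Nat.pair (v.getD j 0) (w.getD k 0)))) = 1 ↔
      S.mem ((u.map e').getD i S.c0) (v.getD j 0) ((w.map e).getD k S.r0)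
    rw [getD_map' e w k 0 S.r0 he, getD_map' e' u i 0 S.c0 he']
    unfold code
    rw [if_neg (by simp)]
    simp
  | neg φ ih =>
    intro v w u
    exact not_congr (ih hR hC v w u)
  | and φ ψ ih1 ih2 =>
    intro v w u
    refine and_congr (ih1 (fun f hf => hR f ?_) (fun f hf => hC f ?_) v w u)
      (ih2 (fun f hf => hR f ?_) (fun f hf => hC f ?_) v w u)
    · exact List.mem_append_left _ hf
    · exact List.mem_append_left _ hf
    · exact List.mem_append_right _ hf
    · exact List.mem_append_right _ hf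
  | exN φ ih =>
    intro v w u
    exact exists_congr fun n => ih hR hC (n :: v) w u
  | exR φ ih =>
    intro v w u
    have ih' := ih (fun f hf => hR f (List.mem_cons_of_mem _ hf)) hC
    constructor
    · rintro ⟨r, hr⟩
      exact ⟨e r, (ih' v (r :: w) u).1 hr⟩
    · intro hex
      have hex' : ∃ r, φ.eval S v (r :: w.map e) (u.map e') := hex
      obtain ⟨j, hj⟩ := hR _ List.mem_cons_self v w u
      simp only [dif_pos hex'] at hj
      refine ⟨j, (ih' v (j :: w) u).2 ?_⟩
      show φ.eval S v (e j :: w.map e) (u.map e')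
      rw [hj]
      exact hex'.choose_spec
  | exC φ ih =>
    intro v w u
    have ih' := ih hR (fun f hf => hC f (List.mem_cons_of_mem _ hf))
    constructor
    · rintro ⟨r, hr⟩
      exact ⟨e' r, (ih' v w (r :: u)).1 hr⟩
    · intro hex
      have hex' : ∃ c, φ.eval S v (w.map e) (c :: u.map e') := hex
      obtain ⟨j, hj⟩ := hC _ List.mem_cons_self v w u
      simp only [dif_pos hex'] at hj
      refine ⟨j, (ih' v w (j :: u)).2 ?_⟩
      show φ.eval S v (w.map e) (e' j :: u.map e')
      rw [hj]
      exact hex'.choose_spec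

theorem main : Pool.Agent.W562.HY.P_ls := by
  intro S φ hφ
  set fR : ℕ → List ℕ → List S.R → List S.C → S.R := fun k =>
    (skR S φ).getD k (fun _ _ _ => S.r0) with hfR
  set fC : ℕ → List ℕ → List S.R → List S.C → S.C := fun k =>
    (skC S φ).getD k (fun _ _ _ => S.c0) with hfC
  set e : ℕ → S.R := fun i => (E S fR fC i).1 with he
  set e' : ℕ → S.C := fun i => (E S fR fC i).2 with he'
  refine ⟨code S e e', (eval_iff S e e' ?_ ?_ φ ?_ ?_ [] [] []).2 hφ⟩
  · simp only [he, E_zero]
  · simp only [he', E_zero]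
  · intro f hf v w u
    obtain ⟨k, hk, rfl⟩ := List.mem_iff_getElem.1 hf
    obtain ⟨n, hn⟩ := E_hit S fR fC k v w u
    refine ⟨n, ?_⟩
    have h1 : e n = fR k v (w.map e) (u.map e') := by
      simp only [he, he']
      rw [hn]
    rw [h1, hfR]
    simp only [List.getD_eq_getElem _ _ hk]
  · intro f hf v w u
    obtain ⟨k, hk, rfl⟩ := List.mem_iff_getElem.1 hf
    obtain ⟨n, hn⟩ := E_hit S fR fC k v w u
    refine ⟨n, ?_⟩
    have h1 : e' n = fC k v (w.map e) (u.map e') := by
      simp only [he, he']
      rw [hn]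
    rw [h1, hfC]
    simp only [List.getD_eq_getElem _ _ hk]

end Pool.Agent.W928.HY.LS
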